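import Pool.Agent.W_a4f561_P13.Piece13
import Pool.Agent.W_a4f561_P8.End8P

/-!
MP_a4f561_co, polylog pages (helper1's proof): the hypothesis `BarsCB` of the final theorem from `PhaseStep` (helper13).
-/

set_option autoImplicit false

namespace Pool.Agent.W_a4f561_P13

open Pool.Agent.W_a4f561_h26 Pool.Agent.W_a4f561_P8 Pool.Agent.W_a4f561_P16

theorem cb_mono {V : Type} {G : Bars V} {π : V → V} {A : Set V} {C C' : ℕ} (h : CB G π A C) (hC : C ≤ C') :
    CB G π A C' := fun p T P hT hP h1 h2 => (h p T P hT hP h1 h2).trans hC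

theorem le_tot (L R : ℕ) : R * ((R + 1) * (2 * NN L R + 2)) * (3 * NN L R + 3) ≤ tot L R := by
  unfold tot
  refine Nat.mul_le_mul_right _ ?_
  rw [← mul_assoc]
  exact Nat.mul_le_mul_left _ (by omega)

/-- The hypothesis of the final theorem. -/
theorem barsCB_of (H : ∀ (V : Type) [Fintype V] [DecidableEq V] (G : Bars V) (L : ℕ) (rnk : V → ℕ), 1 ≤ L →
    Fintype.card V ≤ 2 ^ L → Rks G rnk → (∀ v, rnk v < nrk G) → PhaseStep G rnk (NN L (nrk G))) : BarsCB := by
  intro V _ _ G L hL hc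
  obtain ⟨rnk, h1, h2⟩ := exists_ranks G
  obtain ⟨π, h3, h4, h5⟩ := bars_of_phase h2 h1 (H V G L rnk hL hc h2 h1)
  exact ⟨π, h3, cb_mono h4 (le_tot L _), cb_mono h5 (le_tot L _)⟩

end Pool.Agent.W_a4f561_P13
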