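import Pool.Agent.W_a4f561_P13.Total13
import Pool.Agent.W_a4f561_P34.Loop34
import Pool.Agent.W_a4f561_E.Root8

/-!
MP_a4f561_co, polylog pages (helper1's proof): THE PIECE, i.e. the loop over the phases of one start, the start state, and
the assembly with the outer loop and the total count (helper13). Open: `PhaseStep`.
-/

set_option autoImplicit false

namespace Pool.Agent.W_a4f561_P13

open Pool.Agent.W_a4f561_h26 Pool.Agent.W_a4f561_P73 Pool.Agent.W_a4f561_P45 Pool.Agent.W_a4f561_P8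
open Pool.Agent.W_a4f561_P16 Pool.Agent.W_a4f561_h1 Pool.Agent.W_a4f561_P34

variable {V : Type} [Fintype V] [DecidableEq V]

/-- ONE PHASE: if the pending vertex `c` is not drawn, one more phase can be drawn from `c` to a new pending vertex `e`. -/
def PhaseStep (G : Bars V) (rnk : V → ℕ) (N : ℕ) : Prop :=
  ∀ (X : MS V) (S0 : Set V) (r c : V) (T0 T1 : ℕ), WI G rnk N 0 X c → PS G rnk X S0 r c → c ∉ X.σ.S →
    G.b r ≤ T0 → T0 ≤ G.t r → G.t r < T1 → (∀ u, T1 ≤ G.N → G.b u ≤ T1 → T1 ≤ G.t u → u ∈ S0) →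
    (∀ u ∈ S0, G.inn u → ¬ (T0 < G.b (X.rt (X.phs u)) ∧ G.t (X.rt (X.phs u)) < T1)) →
    ∃ X' e, WI G rnk N 0 X' e ∧ PS G rnk X' S0 r e ∧ G.t c < G.t e ∧ c ∈ X'.σ.S ∧ X.σ.S ⊆ X'.σ.S ∧
      (∀ u ∈ X.σ.S, X'.σ.pi u = X.σ.pi u) ∧ ∀ u ∈ X.σ.S, G.inn u → X'.rt (X'.phs u) = X.rt (X.phs u)

/-- THE PIECE: phases are drawn until the pending vertex is a drawn one. -/
theorem piece {G : Bars V} {rnk : V → ℕ} {N : ℕ} (hP : PhaseStep G rnk N) (X : MS V) (S0 : Set V) (r c : V)
    (T0 T1 : ℕ) (hX : WI G rnk N 0 X c) (hS : PS G rnk X S0 r c) (h1 : G.b r ≤ T0) (h2 : T0 ≤ G.t r)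
    (h3 : G.t r < T1) (h4 : ∀ u, T1 ≤ G.N → G.b u ≤ T1 → T1 ≤ G.t u → u ∈ S0)
    (h5 : ∀ u ∈ S0, G.inn u → ¬ (T0 < G.b (X.rt (X.phs u)) ∧ G.t (X.rt (X.phs u)) < T1)) :
    ∃ X' e, WI G rnk N 0 X' e ∧ PS G rnk X' S0 r e ∧ e ∈ X'.σ.S ∧ c ∈ X'.σ.S ∧ X.σ.S ⊆ X'.σ.S ∧
      (∀ u ∈ X.σ.S, X'.σ.pi u = X.σ.pi u) ∧ ∀ u ∈ X.σ.S, G.inn u → X'.rt (X'.phs u) = X.rt (X.phs u) := by
  have key : ∀ n : ℕ, ∀ (X : MS V) (c : V), G.N + 3 - G.t c ≤ n → WI G rnk N 0 X c → PS G rnk X S0 r c →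
      (∀ u ∈ S0, G.inn u → ¬ (T0 < G.b (X.rt (X.phs u)) ∧ G.t (X.rt (X.phs u)) < T1)) →
      ∃ X' e, WI G rnk N 0 X' e ∧ PS G rnk X' S0 r e ∧ e ∈ X'.σ.S ∧ c ∈ X'.σ.S ∧ X.σ.S ⊆ X'.σ.S ∧
      (∀ u ∈ X.σ.S, X'.σ.pi u = X.σ.pi u) ∧ ∀ u ∈ X.σ.S, G.inn u → X'.rt (X'.phs u) = X.rt (X.phs u) := by
    intro n
    induction n with
    | zero =>
      intro X c hn _ _ _
      exfalso
      have h6 : G.t c ≤ G.N + 2 := by
        by_cases hb : c = G.bot
        · rw [hb]; exact G.t_bot'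
        · by_cases ht : c = G.top
          · rw [ht]; exact G.t_top'
          · have := G.t_in c hb ht
            omega
      omega
    | succ n ih =>
      intro X c hn hX hS h5
      by_cases hc : c ∈ X.σ.S
      · exact ⟨X, c, hX, hS, hc, hc, subset_rfl, fun _ _ => rfl, fun _ _ _ => rfl⟩
      · obtain ⟨X1, e, k1, k2, k3, k4, k5, k6, k7⟩ := hP X S0 r c T0 T1 hX hS hc h1 h2 h3 h4 h5
        obtain ⟨X2, e2, l1, l2, l3, _, l5, l6, l7⟩ := ih X1 e (by omega) k1 k2 (fun u hu hi => by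
          rw [k7 u (hS.sub hu) hi]
          exact h5 u hu hi)
        refine ⟨X2, e2, l1, l2, l3, l5 k4, k5.trans l5, fun u hu => ?_, fun u hu hi => ?_⟩
        · rw [l6 u (k5 hu), k6 u hu]
        · rw [l7 u (k5 hu) hi, k7 u hu hi]
  exact key _ X c le_rfl hX hS h5

/-- The pending vertex plays no role if the drawn set is closed. -/
theorem wi_change {G : Bars V} {rnk : V → ℕ} {N : ℕ} {X : MS V} {c : V} (hX : WI G rnk N 0 X c)
    (hcl : ∀ v ∈ X.σ.S, X.σ.pi v ∈ X.σ.S) (c' : V) : WI G rnk N 0 X c' :=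
  { hX with inv := { hX.inv with cl := fun v hv => Or.inl (hcl v hv) } }

/-- The situation at the start of a piece. -/
theorem ps_init {G : Bars V} {rnk : V → ℕ} {N : ℕ} {X : MS V} {c : V} (hX : WI G rnk N 0 X c)
    (hcl : ∀ v ∈ X.σ.S, X.σ.pi v ∈ X.σ.S) {r : V} (hr : r ∉ X.σ.S) (hlow : ∀ u, rnk u < rnk r → u ∈ X.σ.S)
    (hle : ∀ k, 1 ≤ k → k ≤ X.np → rnk (X.rt k) ≤ rnk r) : PS G rnk X X.σ.S r r where
  sub := subset_rfl
  cl0 := hcl
  bot0 := hX.inv.bot_mem
  top0 := hX.inv.top_mem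
  low0 := hlow
  rts := hle
  rS := hr
  orb := ⟨0, rfl⟩
  pc := fun v hv ht => absurd (orb_t hX.inv.ch hv) (by omega)
  cp := fun v hv hv' => absurd hv hv'
  rt0 := fun v hv hi he => by
    have h1 := hX.phs_rng v hv hi
    exact hr (he ▸ (hX.rtS _ h1.1 h1.2).1)
  le := fun i hi hi' he => by
    have h1 := hX.ph_rng i hi hi'
    exact absurd (he ▸ (hX.rtS _ h1.1 h1.2).1) hr
  nx := fun h => absurd rfl h
  nr := fun _ k hk hk' he => hr (he ▸ (hX.rtS k hk hk').1)

/-- The start state. -/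
noncomputable def X0 (G : Bars V) : MS V := by
  classical
  exact
  { σ := { S := {G.bot, G.top}, Dec := ∅, Lat := ∅, pi := fun v => if G.inn v then G.lo v else v, RD := ∅, RU := ∅ }
    cell := fun _ => 0
    nl := 1
    par := fun _ => 0
    s := fun _ => 0
    e := fun _ => 0
    rk := fun i => if i = 0 then 0 else 1
    ph := fun _ => 0
    sd := fun _ => false
    np := 0
    phs := fun _ => 0
    lc := fun _ => 0
    st := fun _ => G.bot
    rt := fun _ => G.bot
    ev := fun _ _ _ _ _ => False }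

theorem x0_ch (G : Bars V) : Ch G (X0 G).σ.pi := by
  refine ⟨?_, ?_, ?_⟩
  · simp only [X0]
    rw [if_neg (fun h => h.1 rfl)]
  · simp only [X0]
    rw [if_neg (fun h => h.2 rfl)]
  · intro v hv
    left
    simp only [X0]
    rw [if_pos hv]

theorem x0_inn {G : Bars V} {v : V} (h : v ∈ (X0 G).σ.S) : ¬ G.inn v := by
  rcases h with rfl | rfl
  · exact fun h => h.1 rfl
  · exact fun h => h.2 rfl

theorem x0_S {G : Bars V} {v : V} (h : ¬ G.inn v) : v ∈ (X0 G).σ.S := by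
  by_cases h1 : v = G.bot
  · exact Or.inl h1
  · by_cases h2 : v = G.top
    · exact Or.inr h2
    · exact absurd ⟨h1, h2⟩ h

theorem anc0 {i j : ℕ} (h : Anc (fun _ => 0) i j) (hj : j = 0) : i = 0 := by
  obtain ⟨k, hk⟩ := h
  cases k with
  | zero => rw [← hk, hj]; rfl
  | succ k => rw [← hk, Function.iterate_succ_apply']

theorem law_ch {G : Bars V} {σ : St V} (hch : Ch G σ.pi) (hb : G.bot ∈ σ.S) (ht : G.top ∈ σ.S)
    (ω : V × Bool → Bool) : Ch G (law G σ ω) := by
  refine ⟨?_, ?_, ?_⟩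
  · unfold law
    rw [if_pos (Set.mem_union_left _ hb)]
    exact hch.1
  · unfold law
    rw [if_pos (Set.mem_union_left _ ht)]
    exact hch.2.1
  · intro v hv
    unfold law
    split_ifs with h1 h2
    · exact hch.2.2 v hv
    · unfold Bars.zz
      split_ifs
      · exact Or.inr rfl
      · exact Or.inl rfl
    · unfold Bars.oo
      split_ifs
      · exact Or.inl rfl
      · exact Or.inr rfl

/-- A route of a choice function leaves the inner vertices. -/
theorem leaves {G : Bars V} {π : V → V} (hπ : Ch G π) (v : V) (hv : G.inn v) :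
    ∃ e, ¬ G.inn e ∧ Orb π v e ∧ ∀ u, Orb π v u → G.t u < G.t e → G.inn u := by
  have key : ∀ n : ℕ, ∀ v, G.inn v → G.N - G.t v ≤ n →
      ∃ e, ¬ G.inn e ∧ Orb π v e ∧ ∀ u, Orb π v u → G.t u < G.t e → G.inn u := by
    intro n
    induction n with
    | zero =>
      intro v hv hn
      have := G.t_in v hv.1 hv.2
      omega
    | succ n ih =>
      intro v hv hn
      have h1 := G.t_in v hv.1 hv.2
      have h2 := hπ.t_lt hv
      by_cases h3 : G.inn (π v)
      · have h4 := G.t_in _ h3.1 h3.2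
        obtain ⟨e, h5, h6, h7⟩ := ih (π v) h3 (by omega)
        refine ⟨e, h5, orb_trans ⟨1, rfl⟩ h6, fun u hu hut => ?_⟩
        obtain ⟨k, rfl⟩ := hu
        cases k with
        | zero => exact hv
        | succ k => exact h7 _ ⟨k, rfl⟩ hut
      · refine ⟨π v, h3, ⟨1, rfl⟩, fun u hu hut => ?_⟩
        obtain ⟨k, rfl⟩ := hu
        cases k with
        | zero => exact hv
        | succ k =>
          exfalso
          have h4 : Orb π (π v) (π^[k + 1] v) := ⟨k, rfl⟩
          have := orb_t hπ h4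
          omega
  exact key _ v hv le_rfl

/-- THE START. -/
theorem x0_wi (G : Bars V) (rnk : V → ℕ) (N : ℕ) (c : V) : WI G rnk N 0 (X0 G) c where
  inv :=
    { bot_mem := Or.inl rfl
      top_mem := Or.inr rfl
      ch := x0_ch G
      cl := fun v hv => Or.inl (by rw [ch_not_inn (x0_ch G) (x0_inn hv)]; exact hv)
      lat := rfl
      recD := fun R hR => absurd hR (Set.notMem_empty _)
      recU := fun R hR => absurd hR (Set.notMem_empty _)
      decl := fun u hu => absurd hu (Set.notMem_empty _) }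
  lab :=
    { par0 := rfl
      rk_par := fun i hi => by
        show (if (0:ℕ) = 0 then 0 else 1) < (if i = 0 then 0 else 1)
        rw [if_pos rfl, if_neg (by omega)]
        exact Nat.one_pos
      rk_cls := fun i j hi hj _ => by
        show (if i = 0 then 0 else 1) = (if j = 0 then 0 else 1)
        rw [if_neg (by omega), if_neg (by omega)]
      e_cls := fun _ _ _ _ _ => le_rfl
      opn := fun c τ P hP => by
        have : P = ∅ := by
          by_contra hne
          obtain ⟨i, hi⟩ := Finset.nonempty_iff_ne_empty.2 hne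
          exact absurd (hP i hi).2.2.2 (Nat.not_lt_zero _)
        rw [this]
        exact Nat.zero_le _ }
  par_lt := fun i hi => hi
  s0 := rfl
  rk0 := rfl
  dflt := fun i hi => ⟨rfl, rfl, rfl⟩
  nl_pos := le_rfl
  cell_lt := fun v => Nat.one_pos
  ph_rng := fun i hi hi' => absurd hi' (by show ¬ i < 1; omega)
  lab_par := fun i hi hi' => absurd hi' (by show ¬ i < 1; omega)
  lab_rk := fun i hi hi' => absurd hi' (by show ¬ i < 1; omega)
  lab_e := fun i hi hi' => absurd hi' (by show ¬ i < 1; omega)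
  lc_lt := fun k hk hk' => absurd hk' (by show ¬ k ≤ 0; omega)
  phs_rng := fun v hv hi => absurd hi (x0_inn hv)
  cellS := fun v hv hi => absurd hi (x0_inn hv)
  I1 := fun v hv => by
    have hvi : G.inn v := by
      by_contra h
      exact hv (x0_S h)
    have h1 : kap (Fintype.card V) ((X0 G).rk ((X0 G).cell v)) = 1 := kap_zero _
    rw [h1]
    refine le_of_eq (Pool.Agent.W_a4f561_E.R8.pr_one8 _ (fun ω => ?_)).symm
    obtain ⟨e, h2, h3, h4⟩ := leaves (law_ch (x0_ch G) (Or.inl rfl) (Or.inr rfl) ω) v hvi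
    refine ⟨e, ⟨Or.inl ⟨0, rfl⟩, fun h => h.1 (x0_S h2)⟩, fun h => h.1 (x0_S h2), h3, fun u hu hut => ?_⟩
    exact ⟨fun h => x0_inn h (h4 u hu hut), rfl⟩
  I2 := fun i hi v hv hvi => absurd hvi (x0_inn hv)
  I3 := fun i hi v hv => absurd (anc0 hv rfl) (by omega)
  lens := fun i τ _ x z x' w π π' hπ hπ' hx hz hx' h1 h2 h3 h4 => by
    have hi : i = 0 := ((h3.2 x ⟨0, rfl⟩ (orb_t hπ.1 h3.1)).2).symm
    subst hi
    refine ⟨fun h => ?_, rfl⟩
    rcases h with rfl | rfl
    · by_cases hb : x = G.bot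
      · rw [hb] at h1
        exact lt_irrefl _ h1
      · have := G.r_bot x hb
        omega
    · by_cases hb : x' = G.top
      · rw [hb] at h2
        exact lt_irrefl _ h2
      · have := G.r_top x' hb
        omega
  evd := fun k b kd v w h => h.elim
  cust := fun k b kd v w h => h.elim
  own := fun k hk hk' => absurd hk' (by show ¬ k ≤ 0; omega)
  root := fun v hv hi => absurd hi (x0_inn hv)
  rtS := fun k hk hk' => absurd hk' (by show ¬ k ≤ 0; omega)
  win := fun k hk hk' => absurd hk' (by show ¬ k ≤ 0; omega)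
  mv := fun k hk hk' => absurd hk' (by show ¬ k + 1 ≤ 0; omega)
  cont := fun k l m h1 h2 h3 h4 => absurd h4 (by show ¬ m ≤ 0; omega)
  low := fun v hv hi => absurd hi (x0_inn hv)
  wlk := fun v _ i hi hv => absurd (anc0 hv rfl) (by omega)

/-- **ASSEMBLY**: the loop over the phases and over the starts, and the total count. -/
theorem bars_of_phase {G : Bars V} {rnk : V → ℕ} (hr : Rks G rnk) {R N : ℕ} (hR : ∀ v, rnk v < R)
    (hP : PhaseStep G rnk N) :
    ∃ π, Ch G π ∧ CB G π Set.univ (R * ((R + 1) * (2 * N + 2)) * (3 * N + 3)) ∧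
      CB G.mir π Set.univ (R * ((R + 1) * (2 * N + 2)) * (3 * N + 3)) := by
  classical
  obtain ⟨X, own, ⟨⟨c, hX⟩, hown⟩, hall, hL⟩ := loop_end hr hR (Q := MS V) (fun X => X.σ.S) (fun X => X.σ.pi)
    (fun _ _ own X => (∃ c, WI G rnk N 0 X c) ∧ ∀ u ∈ X.σ.S, G.inn u → own u = X.rt (X.phs u))
    (by
      rintro U0 k own X v T0 T1 ⟨⟨c, hX⟩, hown⟩ hL hv hk h1 h2 h3 h4 h5
      have hcl : ∀ u ∈ X.σ.S, X.σ.pi u ∈ X.σ.S := hL.cl
      have hPS : PS G rnk X X.σ.S v v := by
        refine ps_init hX hcl hv (fun u hu => hL.sub0 (hL.low u (by omega))) (fun k' hk' hk'' => ?_)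
        have h6 := hX.rtS k' hk' hk''
        have h7 := hL.own_le (X.st k') h6.2.2.1 h6.2.2.2.1
        rw [hown _ h6.2.2.1 h6.2.2.2.1, h6.2.2.2.2] at h7
        omega
      obtain ⟨X', e, k1, k2, k3, k4, k5, k6, k7⟩ := piece hP X X.σ.S v v T0 T1 (wi_change hX hcl v) hPS h1 h2 h3
        (fun u hT hb ht => hL.sub0 (h4 u hT hb ht))
        (fun u hu hi => by
          rw [← hown u hu hi]
          exact h5 u hu hi)
      have he0 : e ∈ X.σ.S := by
        by_contra he
        exact absurd (k2.cp e k3 he).2.1 (lt_irrefl _)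
      refine ⟨X', ⟨k5, k6, k1.inv.ch, ?_, k4, ?_⟩, ⟨e, k1⟩, ?_⟩
      · intro u hu
        rcases k1.inv.cl u hu with h | h
        · exact h
        · show X'.σ.pi u ∈ X'.σ.S
          rw [h]
          exact k3
      · intro u hu hu'
        exact (k2.cp u hu hu').1
      · intro u hu hi
        by_cases hu' : u ∈ X.σ.S
        · rw [own'_mem hu', k7 u hu' hi, hown u hu' hi]
        · rw [own'_not hu', (k2.cp u hu hu').2.2])
    (fun U0 k own X hM _ _ => hM)
    (X0 G) rfl (x0_ch G) (fun _ => G.bot) ⟨⟨G.bot, x0_wi G rnk N _⟩, fun u hu hi => absurd hi (x0_inn hu)⟩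
  have hst : ∀ v, G.inn v → G.inn (X.σ.pi v) → X.rt (X.phs (X.σ.pi v)) = X.rt (X.phs v) ∨
      rnk (X.rt (X.phs (X.σ.pi v))) < rnk (X.rt (X.phs v)) := by
    intro v hv hv'
    have h := hL.step v (hall v) hv hv'
    rw [hown v (hall v) hv, hown _ (hall _) hv'] at h
    exact h
  exact ⟨X.σ.pi, hX.inv.ch, total hX hall hR hst false, total hX hall hR hst true⟩

end Pool.Agent.W_a4f561_P13
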