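import Pool.Agent.W_a4f561_h1.Def
import Pool.Agent.W_a4f561_h26.Bas
import Pool.Agent.W_a4f561_E.Chn28

/-!
MP_a4f561_co, polylog pages (helper1's proof): THE TOTAL COUNT (helper13). From the invariant at the end of the machine:
custody of all promises, number of phases of a piece, number of pieces of a route, own cost of a phase.
-/

set_option autoImplicit false

namespace Pool.Agent.W_a4f561_P13

open Pool.Agent.W_a4f561_h26 Pool.Agent.W_a4f561_P73 Pool.Agent.W_a4f561_P45 Pool.Agent.W_a4f561_P8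
open Pool.Agent.W_a4f561_P16 Pool.Agent.W_a4f561_h1

variable {V : Type} [Fintype V] [DecidableEq V]

theorem ch_not_inn {G : Bars V} {π : V → V} (h : Ch G π) {v : V} (hv : ¬ G.inn v) : π v = v := by
  unfold Bars.inn at hv
  by_cases h1 : v = G.bot
  · rw [h1]; exact h.1
  · by_cases h2 : v = G.top
    · rw [h2]; exact h.2.1
    · exact absurd ⟨h1, h2⟩ hv

/-- CUSTODY AT THE END: all promises of the phase `k` are kept by the final choice function. -/
theorem cust_end {G : Bars V} {rnk : V → ℕ} {N : ℕ} {X : MS V} {c : V} (hX : WI G rnk N 0 X c)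
    (hS : ∀ v, v ∈ X.σ.S) {k : ℕ} {b kd : Bool} {v w : V} (hev : X.ev k b kd v w) {y : V}
    (hy : Hd (sG G b) kd v y) : ∃ u ∈ X.P G k, G.t u ≤ G.t w ∧ Orb X.σ.pi y u := by
  have hch : Ch G X.σ.pi := hX.inv.ch
  rcases hX.cust k b kd v w hev y hy with ⟨h1, h2⟩ | ⟨i, h1, h2, h3, h4, h5⟩
  · exact ⟨y, h1, h2, 0, rfl⟩
  · have hterm : ∀ v, ¬ G.inn v → ∀ i, 1 ≤ i → ¬ Anc X.par i (X.cell v) := by
      intro v hv i hi ha
      have hvC : v ∈ X.C i := ha
      have h6 := (hX.I3 i hi v hvC).2
      by_cases hi2 : i < X.nl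
      · obtain ⟨u, hu, hue⟩ := hX.lab_e i hi hi2
        have hui : G.inn u := hu.2.1
        have h7 := G.t_in u hui.1 hui.2
        have h8 : v = G.bot ∨ v = G.top := by
          by_contra hc
          rw [not_or] at hc
          exact hv hc
        have h9 := G.t_bot
        have h10 := G.t_top
        rcases h8 with rfl | rfl <;> omega
      · have := (hX.dflt i (by omega)).2.2
        omega
    have htn : ∀ v, G.inn v → G.t v < G.t (X.σ.pi v) := fun v hv => hch.t_lt hv
    have hB : ∀ v, G.inn v → G.t v ≤ G.N := fun v hv => (G.t_in v hv.1 hv.2).le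
    have hI2 : ∀ v, G.inn v → ∀ i, 1 ≤ i → Anc X.par i (X.cell v) →
        Anc X.par i (X.cell (X.σ.pi v)) ∨ X.σ.pi v ∈ X.bd G i ∨
          ∃ j, 1 ≤ j ∧ j < i ∧ X.cls j = X.cls i ∧ Anc X.par j (X.cell (X.σ.pi v)) := by
      intro v hv i hi ha
      rcases hX.I2 i hi v (hS v) hv ha with h | h | h
      · exact Or.inl h
      · exact Or.inr (Or.inl h)
      · exact Or.inr (Or.inr h)
    obtain ⟨m, _, j, h6, h7, h8, h9⟩ := custody hterm htn hB hI2 h1 h5
    obtain ⟨h10, h11⟩ := h9
    have h12 : X.ph j = X.ph i := congrArg Prod.fst h8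
    have h13 := hX.lab.e_cls i j h6 h7 h8
    refine ⟨_, ?_, h11.trans (h13.trans h4), m, rfl⟩
    rw [h12, h2] at h10
    exact h10

/-- The number of phases of one piece. -/
theorem phases_card {G : Bars V} {rnk : V → ℕ} {N : ℕ} {X : MS V} {c : V} (hX : WI G rnk N 0 X c) {R : ℕ}
    (hR : ∀ v, rnk v < R) (r : V) (P : Finset ℕ) (hP : ∀ i ∈ P, 1 ≤ i ∧ i ≤ X.np ∧ X.rt i = r) :
    P.card ≤ (R + 1) * (2 * N + 2) := by
  classical
  rcases P.eq_empty_or_nonempty with rfl | hne
  · simp
  · set a := P.min' hne with ha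
    set z := P.max' hne with hz
    have haP : a ∈ P := P.min'_mem hne
    have hzP : z ∈ P := P.max'_mem hne
    have h1 := hP a haP
    have h2 := hP z hzP
    have haz : a ≤ z := P.min'_le z hzP
    have hall : ∀ l, a ≤ l → l ≤ z → X.rt l = r := by
      intro l hal hlz
      rw [hX.cont a l z h1.1 hal hlz h2.2.1 (h1.2.2.trans h2.2.2.symm)]
      exact h1.2.2
    have hrk : ∀ l, 1 ≤ l → l ≤ X.np → X.rk (X.lc l) ≤ R := by
      intro l hl1 hl2
      have h3 := hX.lc_lt l hl1 hl2
      rcases Nat.eq_zero_or_pos (X.lc l) with h4 | h4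
      · rw [h4, hX.rk0]
        exact Nat.zero_le _
      · rw [hX.lab_rk _ h4 h3]
        exact hR _
    have hcard : P ⊆ Finset.Icc a z := by
      intro i hi
      exact Finset.mem_Icc.2 ⟨P.min'_le i hi, P.le_max' i hi⟩
    have h3 := Finset.card_le_card hcard
    rw [Nat.card_Icc] at h3
    have h4 : z + 1 - a ≤ (R + 1) * (2 * N + 2) := by
      refine phases_le hX.lab (by omega) (R := R) (n := z + 1 - a) (fun l => X.lc (a + l))
        (fun l => G.t (X.st (a + l))) ?_ ?_ ?_ ?_
      · intro l hl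
        exact hrk _ (by omega) (by omega)
      · intro l hl
        refine (hX.mv (a + l) (by omega) (by omega) ?_).2
        rw [hall (a + l) (by omega) (by omega), hall (a + l + 1) (by omega) (by omega)]
      · intro l hl h5
        exact hX.win (a + l) (by omega) (by omega) h5
      · intro l hl
        refine (hX.mv (a + l) (by omega) (by omega) ?_).1
        rw [hall (a + l) (by omega) (by omega), hall (a + l + 1) (by omega) (by omega)]
    exact h3.trans h4

theorem cb_of_inn {G : Bars V} {π : V → V} {C : ℕ} (h : CB G π {v | G.inn v} C) : CB G π Set.univ C := by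
  intro p T P hT hP h1 h2
  refine h p T P hT (fun q hq => ?_) h1 h2
  obtain ⟨v, hv, _, hi, hrest⟩ := hP q hq
  exact ⟨v, hv, hi, hi, hrest⟩

theorem sG_inn (G : Bars V) (b : Bool) (v : V) : (sG G b).inn v ↔ G.inn v := by
  cases b
  · exact Iff.rfl
  · exact ⟨fun h => ⟨h.2, h.1⟩, fun h => ⟨h.2, h.1⟩⟩

/-- **THE TOTAL.** -/
theorem total {G : Bars V} {rnk : V → ℕ} {N : ℕ} {X : MS V} {c : V} (hX : WI G rnk N 0 X c)
    (hS : ∀ v, v ∈ X.σ.S) {R : ℕ} (hR : ∀ v, rnk v < R)
    (hst : ∀ v, G.inn v → G.inn (X.σ.pi v) → X.rt (X.phs (X.σ.pi v)) = X.rt (X.phs v) ∨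
      rnk (X.rt (X.phs (X.σ.pi v))) < rnk (X.rt (X.phs v))) (b : Bool) :
    CB (sG G b) X.σ.pi Set.univ (R * ((R + 1) * (2 * N + 2)) * (3 * N + 3)) := by
  classical
  have hch : Ch G X.σ.pi := hX.inv.ch
  refine cb_of_inn ?_
  refine Pool.Agent.W_a4f561_E.Chn28.cb_fam X.phs ?_ ?_
  · rintro i ⟨v, hv, rfl⟩
    have hvi : G.inn v := (sG_inn G b v).1 hv
    have h1 := hX.phs_rng v (hS v) hvi
    have h2 := hX.own (X.phs v) h1.1 h1.2 (by omega) X.σ.pi ⟨hch, fun _ _ => rfl⟩
      (fun b kd v' w hev y hy => cust_end hX hS hev hy) b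
    intro p T P hT hP h3 h4
    refine h2 p T P hT (fun q hq => ?_) h3 h4
    obtain ⟨v', hv', hv'A, hrest⟩ := hP q hq
    exact ⟨v', hv', ⟨hS v', (sG_inn G b v').1 hv'A.1, hv'A.2⟩, hrest⟩
  · intro p
    refine ⟨(Finset.univ.filter (fun v => Orb X.σ.pi p v ∧ G.inn v)).image X.phs, ?_, ?_⟩
    · -- pieces are encoded by the time of the root
      set prk : ℕ → ℕ := fun n => if h : ∃ v, G.t v = n then rnk h.choose else 0 with hprk
      have hprk' : ∀ v, prk (G.t v) = rnk v := by
        intro v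
        have hex : ∃ v', G.t v' = G.t v := ⟨v, rfl⟩
        rw [hprk]
        simp only [dif_pos hex]
        rw [G.t_inj hex.choose_spec]
      refine route_le (π := X.σ.pi) (Inn := G.inn) (ph := X.phs) (pc := fun i => G.t (X.rt i)) (prk := prk)
        ?_ ?_ ?_ ?_ p _ ?_
      · intro v hv
        rw [ch_not_inn hch hv]
        exact hv
      · intro v hv hv'
        rcases hst v hv hv' with h | h
        · left
          rw [h]
        · right
          simp only [hprk']
          exact h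
      · intro v hv
        rw [hprk']
        exact hR _
      · intro a P hP
        rcases P.eq_empty_or_nonempty with rfl | hne
        · simp
        · obtain ⟨i0, hi0⟩ := hne
          obtain ⟨h1, _⟩ := hP i0 hi0
          refine phases_card hX hR (X.rt i0) P (fun i hi => ?_)
          obtain ⟨h2, v, hv, hvi⟩ := hP i hi
          have h3 := hX.phs_rng v (hS v) hv
          rw [hvi] at h3
          exact ⟨h3.1, h3.2, G.t_inj (h2.trans h1.symm)⟩
      · intro i hi
        obtain ⟨v, hv, rfl⟩ := Finset.mem_image.1 hi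
        obtain ⟨_, ⟨m, rfl⟩, h2⟩ := Finset.mem_filter.1 hv
        exact ⟨m, h2, rfl⟩
    · intro v hv hpv
      refine Finset.mem_image.2 ⟨v, Finset.mem_filter.2 ⟨Finset.mem_univ _, hpv, (sG_inn G b v).1 hv⟩, rfl⟩

end Pool.Agent.W_a4f561_P13
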